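import Pool.Agent.H685R2.DIM.Final

/-!
# Dominating induced matchings in `P_k`-free graphs, for every `k`

The problem DIM restricted to graphs without an induced path on `k` vertices can be solved in
polynomial time, for every fixed `k`.

The algorithm. A subproblem is a set `X` of vertices with a set `B` of vertices that have to be
matched. For every component `C` of `G[X]` one edge `w p` of the matching is guessed; all other
vertices of `C` adjacent to `w` or `p` are unmatched, so they are removed, and all their neighbours
have to be matched; then every vertex with two neighbours which have to be matched is unmatched,
so it is removed, too, and all its neighbours have to be matched. The recursion goes on with the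
components of the rest, up to a constant depth `R = R(k)`.

Why constant depth suffices. Let `C₀ ⊃ C₁ ⊃ …` be the components on a branch of the recursion for a
fixed solution; the pivot `w_{i+1}` is the first vertex of `C_{i+1}` on a path from `w_i` in `C_i`
(it has a removed unmatched neighbour, so it is known to be matched). For `i < j` let `P(i, j)` be a
shortest path from `w_i` to `w_j` in `(C_i ∖ C_j) ∪ {w_j}`; it has less than `k` vertices. Colour
`i < j < i' < j'` by the positions of two adjacent vertices of `P(i, j)` and `P(i', j')`, if there
are any. By Ramsey's theorem a long chain has a long homogeneous subchain. If the colour is a pair
of positions, there are `x ∈ C_e ∖ C_{e+1}`, `u ∈ C_{e+2}` and two common neighbours `y ≠ y'` of `x`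
and `u` in `C_{e+1}`; but `y` and `y'` have a removed unmatched neighbour `x`, so they are known to be
matched, and `u` was removed in the cleaning step: a contradiction. Otherwise the union of the
consecutive paths contains an induced path with at least `k` vertices.
-/

namespace Pool.Agent.Results.MP_c4d05f_lc.PathFree

open Pool.Agent.NPC Pool.Agent.H685R2.DIM

/-- For every `k`, the problem of recognising the `P_k`-free graphs with a dominating induced
matching is in P. -/
theorem result (k : ℕ) : InPP (DIMPathFree k) := Pool.Agent.NPC.H685DIM.dim_inPP k

end Pool.Agent.Results.MP_c4d05f_lc.PathFree
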